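import Pool.Agent.Run7.h570.GH.Iface

/-!
# Piece PSys of the project of helper570 (graph hypersurfaces)
-/

set_option autoImplicit false

open CategoryTheory AlgebraicGeometry MvPolynomial Pool.Agent.Y116.UV Pool.Agent.Z125.UN
  Pool.Agent.Q282.UZ Run7.h570.GH

namespace Run7.h579.GH

section rg

variable {R : Type} [CommRing R] {σ : Type} {S : Fam R σ}

theorem rg_coord (s : σ) : Rg S (fun _ _ _ x => x s) :=
  ⟨X s, 1, fun K _ _ x _ => by simp⟩

theorem rg_zero : Rg S (fun _ _ _ _ => 0) :=
  ⟨0, 1, fun K _ _ x _ => by simp⟩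

theorem rg_neg {F : Fun R σ} (h : Rg S F) : Rg S (fun K _ _ x => - F K x) := by
  obtain ⟨n, d, h⟩ := h
  exact ⟨-n, d, fun K _ _ x hx => ⟨(h K x hx).1, by rw [neg_mul, (h K x hx).2, map_neg]⟩⟩

theorem rg_mul {F F' : Fun R σ} (h : Rg S F) (h' : Rg S F') :
    Rg S (fun K _ _ x => F K x * F' K x) := by
  obtain ⟨n, d, h⟩ := h
  obtain ⟨n', d', h'⟩ := h'
  refine ⟨n * n', d * d', fun K _ _ x hx => ⟨?_, ?_⟩⟩
  · rw [map_mul]; exact mul_ne_zero (h K x hx).1 (h' K x hx).1
  · rw [map_mul, map_mul, ← (h K x hx).2, ← (h' K x hx).2]; ring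

theorem rg_inv {F : Fun R σ} (h : Rg S F)
    (h0 : ∀ (K : Type) [Field K] [Algebra R K] (x : σ → K), S K x → F K x ≠ 0) :
    Rg S (fun K _ _ x => (F K x)⁻¹) := by
  obtain ⟨n, d, h⟩ := h
  refine ⟨d, n, fun K _ _ x hx => ⟨?_, ?_⟩⟩
  · rw [← (h K x hx).2]; exact mul_ne_zero (h0 K x hx) (h K x hx).1
  · rw [← (h K x hx).2, inv_mul_cancel_left₀ (h0 K x hx)]

theorem rg_div {F F' : Fun R σ} (h : Rg S F) (h' : Rg S F')
    (h0 : ∀ (K : Type) [Field K] [Algebra R K] (x : σ → K), S K x → F' K x ≠ 0) :
    Rg S (fun K _ _ x => F K x / F' K x) := by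
  simp only [div_eq_mul_inv]
  exact rg_mul h (rg_inv h' h0)

theorem rg_ite {p : Prop} [Decidable p] {F F' : Fun R σ} (h : Rg S F) (h' : Rg S F') :
    Rg S (fun K _ _ x => if p then F K x else F' K x) := by
  by_cases hp : p
  · simpa only [hp, if_true] using h
  · simpa only [hp, if_false] using h'

end rg

/-- the coordinates of the vector space -/
inductive Hc (α β T : Type)
  | al (i : α)
  | be (j : β)
  | hh (t : T)
  | inf

/-- the rows -/
inductive Rw (β T : Type)
  | om
  | rr
  | dp (t : T)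
  | ga (j : β)

/-- the columns -/
inductive Cl (T L : Type)
  | dd (t : T)
  | ee (t : T)
  | cc (l : L)

/-- the nonzero entries -/
inductive Nz (α β T L : Type)
  | mal (i : α)
  | mbe (j : β)
  | mh (t : T)
  | de (t : T)
  | ep (t : T)
  | dp (t : T)
  | g (j : β)
  | ka (l : L)

variable {α β T L : Type}

def eH : ((α ⊕ β) ⊕ (T ⊕ Unit)) ≃ Hc α β T where
  toFun x := match x with
    | .inl (.inl i) => .al i
    | .inl (.inr j) => .be j
    | .inr (.inl t) => .hh t
    | .inr (.inr _) => .inf
  invFun x := match x with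
    | .al i => .inl (.inl i)
    | .be j => .inl (.inr j)
    | .hh t => .inr (.inl t)
    | .inf => .inr (.inr ())
  left_inv := by rintro ((i | j) | (t | _)) <;> rfl
  right_inv := by rintro (i | j | t | _) <;> rfl

def eR : ((Unit ⊕ Unit) ⊕ (T ⊕ β)) ≃ Rw β T where
  toFun x := match x with
    | .inl (.inl _) => .om
    | .inl (.inr _) => .rr
    | .inr (.inl t) => .dp t
    | .inr (.inr j) => .ga j
  invFun x := match x with
    | .om => .inl (.inl ())
    | .rr => .inl (.inr ())
    | .dp t => .inr (.inl t)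
    | .ga j => .inr (.inr j)
  left_inv := by rintro ((i | j) | (t | _)) <;> rfl
  right_inv := by rintro (_ | _ | t | j) <;> rfl

def eC : ((T ⊕ T) ⊕ L) ≃ Cl T L where
  toFun x := match x with
    | .inl (.inl t) => .dd t
    | .inl (.inr t) => .ee t
    | .inr l => .cc l
  invFun x := match x with
    | .dd t => .inl (.inl t)
    | .ee t => .inl (.inr t)
    | .cc l => .inr l
  left_inv := by rintro ((i | j) | l) <;> rfl
  right_inv := by rintro (_ | _ | t) <;> rfl

def eN : (((α ⊕ β) ⊕ (T ⊕ T)) ⊕ ((T ⊕ T) ⊕ (β ⊕ L))) ≃ Nz α β T L where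
  toFun x := match x with
    | .inl (.inl (.inl i)) => .mal i
    | .inl (.inl (.inr j)) => .mbe j
    | .inl (.inr (.inl t)) => .mh t
    | .inl (.inr (.inr t)) => .de t
    | .inr (.inl (.inl t)) => .ep t
    | .inr (.inl (.inr t)) => .dp t
    | .inr (.inr (.inl j)) => .g j
    | .inr (.inr (.inr l)) => .ka l
  invFun x := match x with
    | .mal i => .inl (.inl (.inl i))
    | .mbe j => .inl (.inl (.inr j))
    | .mh t => .inl (.inr (.inl t))
    | .de t => .inl (.inr (.inr t))
    | .ep t => .inr (.inl (.inl t))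
    | .dp t => .inr (.inl (.inr t))
    | .g j => .inr (.inr (.inl j))
    | .ka l => .inr (.inr (.inr l))
  left_inv := by rintro (((_ | _) | (_ | _)) | ((_ | _) | (_ | _))) <;> rfl
  right_inv := by rintro (_ | _ | _ | _ | _ | _ | _ | _) <;> rfl

instance [Fintype α] [Fintype β] [Fintype T] : Fintype (Hc α β T) := Fintype.ofEquiv _ eH
instance [Fintype β] [Fintype T] : Fintype (Rw β T) := Fintype.ofEquiv _ eR
instance [Fintype T] [Fintype L] : Fintype (Cl T L) := Fintype.ofEquiv _ eC
instance [Fintype α] [Fintype β] [Fintype T] [Fintype L] : Fintype (Nz α β T L) :=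
  Fintype.ofEquiv _ eN

theorem sum_H [Fintype α] [Fintype β] [Fintype T] {K : Type} [AddCommMonoid K]
    (F : Hc α β T → K) :
    ∑ h, F h = (∑ i, F (.al i) + ∑ j, F (.be j)) + (∑ t, F (.hh t) + F .inf) := by
  rw [← eH.sum_comp]
  simp [Fintype.sum_sum_type, eH]

section fam

variable (iT : T → α) (jT : T → β) (lT : T → L)

/-- supports of the rows -/
def sR : Rw β T → Hc α β T → Prop
  | .om, .al _ => True
  | .om, .be _ => True
  | .om, .hh _ => True
  | .om, .inf => False
  | .rr, .al _ => True
  | .rr, .be _ => False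
  | .rr, .hh _ => True
  | .rr, .inf => False
  | .dp _, .al _ => False
  | .dp t, .be j => j = jT t
  | .dp t, .hh s => s = t
  | .dp _, .inf => False
  | .ga _, .al _ => False
  | .ga j, .be k => k = j
  | .ga _, .hh _ => False
  | .ga _, .inf => True

/-- supports of the columns -/
def sC : Cl T L → Hc α β T → Prop
  | .dd t, .al i => i = iT t
  | .dd _, .be _ => False
  | .dd t, .hh s => s = t
  | .dd _, .inf => False
  | .ee _, .al _ => False
  | .ee t, .be j => j = jT t
  | .ee t, .hh s => s = t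
  | .ee _, .inf => False
  | .cc _, .al _ => False
  | .cc _, .be _ => True
  | .cc l, .hh t => lT t = l
  | .cc _, .inf => True

/-- the orthogonality relations -/
def Om : Rw β T → Cl T L → Prop
  | .om, .dd _ => True
  | .om, .ee _ => True
  | .om, .cc _ => False
  | .rr, .dd _ => True
  | .rr, .ee _ => False
  | .rr, .cc _ => True
  | .dp _, .dd _ => False
  | .dp t, .ee s => s = t
  | .dp t, .cc l => lT t = l
  | .ga _, .dd _ => False
  | .ga _, .ee _ => False
  | .ga _, .cc _ => True

/-- the positions of the nonzero entries -/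
def pos : Nz α β T L → (Rw β T × Hc α β T) ⊕ (Cl T L × Hc α β T)
  | .mal i => .inl (.om, .al i)
  | .mbe j => .inl (.om, .be j)
  | .mh t => .inl (.om, .hh t)
  | .de t => .inr (.dd t, .al (iT t))
  | .ep t => .inr (.ee t, .be (jT t))
  | .dp t => .inl (.dp t, .be (jT t))
  | .g j => .inl (.ga j, .be j)
  | .ka l => .inr (.cc l, .inf)

variable {K : Type} [Field K]

/-- from the matrices to the solutions -/
def fm (x : (Rw β T × Hc α β T) ⊕ (Cl T L × Hc α β T) → K) : (α ⊕ β) ⊕ Nz α β T L → K
  | .inl (.inl i) => x (.inl (.rr, .al i)) / x (.inl (.om, .al i))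
  | .inl (.inr j) => x (.inl (.ga j, .inf)) * x (.inl (.om, .be j)) / x (.inl (.ga j, .be j))
  | .inr n => x (pos iT jT n)

open Classical in
/-- from the solutions to the matrices -/
noncomputable def gm (y : (α ⊕ β) ⊕ Nz α β T L → K) :
    (Rw β T × Hc α β T) ⊕ (Cl T L × Hc α β T) → K
  | .inl (.om, .al i) => y (.inr (.mal i))
  | .inl (.om, .be j) => y (.inr (.mbe j))
  | .inl (.om, .hh t) => y (.inr (.mh t))
  | .inl (.om, .inf) => 0
  | .inl (.rr, .al i) => y (.inl (.inl i)) * y (.inr (.mal i))
  | .inl (.rr, .be _) => 0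
  | .inl (.rr, .hh t) => y (.inl (.inl (iT t))) * y (.inr (.mh t))
  | .inl (.rr, .inf) => 0
  | .inl (.dp _, .al _) => 0
  | .inl (.dp t, .be j) => if j = jT t then y (.inr (.dp t)) else 0
  | .inl (.dp t, .hh s) => if s = t then y (.inr (.dp t)) * y (.inr (.mh t)) /
      y (.inr (.mbe (jT t))) else 0
  | .inl (.dp _, .inf) => 0
  | .inl (.ga _, .al _) => 0
  | .inl (.ga j, .be k) => if k = j then y (.inr (.g j)) else 0
  | .inl (.ga _, .hh _) => 0
  | .inl (.ga j, .inf) => y (.inl (.inr j)) * y (.inr (.g j)) / y (.inr (.mbe j))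
  | .inr (.dd t, .al i) => if i = iT t then y (.inr (.de t)) else 0
  | .inr (.dd _, .be _) => 0
  | .inr (.dd t, .hh s) => if s = t then - (y (.inr (.mal (iT t))) * y (.inr (.de t)) /
      y (.inr (.mh t))) else 0
  | .inr (.dd _, .inf) => 0
  | .inr (.ee _, .al _) => 0
  | .inr (.ee t, .be j) => if j = jT t then y (.inr (.ep t)) else 0
  | .inr (.ee t, .hh s) => if s = t then - (y (.inr (.mbe (jT t))) * y (.inr (.ep t)) /
      y (.inr (.mh t))) else 0
  | .inr (.ee _, .inf) => 0
  | .inr (.cc _, .al _) => 0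
  | .inr (.cc l, .be j) => - (y (.inl (.inr j)) * y (.inr (.ka l)) / y (.inr (.mbe j)))
  | .inr (.cc l, .hh t) => if lT t = l then y (.inl (.inr (jT t))) * y (.inr (.ka l)) /
      y (.inr (.mh t)) else 0
  | .inr (.cc l, .inf) => y (.inr (.ka l))

open Classical in
/-- the system of equations for general index types -/
def GSys (R : Type) [CommRing R] [Fintype T] : Fam R (α ⊕ β) := fun _ _ _ x =>
  ∀ l : L, ∑ t, (if lT t = l then x (.inl (iT t)) * x (.inr (jT t)) else 0) = 0

section cal

variable [Fintype α] [Fintype β] [Fintype T]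

open Classical in
theorem sum_rc (y : (α ⊕ β) ⊕ Nz α β T L → K) (h0 : ∀ n, y (.inr n) ≠ 0) (l : L) :
    ∑ h, gm iT jT lT y (.inl (.rr, h)) * gm iT jT lT y (.inr (.cc l, h)) =
      y (.inr (.ka l)) *
        ∑ t, (if lT t = l then y (.inl (.inl (iT t))) * y (.inl (.inr (jT t))) else 0) := by
  rw [sum_H, Finset.mul_sum]
  simp only [gm, mul_zero, zero_mul, Finset.sum_const_zero, zero_add, add_zero]
  refine Finset.sum_congr rfl fun t _ => ?_
  split_ifs with h
  · have := h0 (.mh t)
    field_simp
  · simp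

/-- the conditions on the matrices, written out -/
structure Exp (x : (Rw β T × Hc α β T) ⊕ (Cl T L × Hc α β T) → K) : Prop where
  hr : ∀ i h, ¬ sR jT i h → x (.inl (i, h)) = 0
  hc : ∀ j h, ¬ sC iT jT lT j h → x (.inr (j, h)) = 0
  n0 : ∀ n, x (pos iT jT n) ≠ 0
  e1 : ∀ t, x (.inl (.om, .al (iT t))) * x (.inr (.dd t, .al (iT t))) +
    x (.inl (.om, .hh t)) * x (.inr (.dd t, .hh t)) = 0
  e2 : ∀ t, x (.inl (.om, .be (jT t))) * x (.inr (.ee t, .be (jT t))) +
    x (.inl (.om, .hh t)) * x (.inr (.ee t, .hh t)) = 0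
  e3 : ∀ t, x (.inl (.rr, .al (iT t))) * x (.inr (.dd t, .al (iT t))) +
    x (.inl (.rr, .hh t)) * x (.inr (.dd t, .hh t)) = 0
  e4 : ∀ t, x (.inl (.dp t, .be (jT t))) * x (.inr (.ee t, .be (jT t))) +
    x (.inl (.dp t, .hh t)) * x (.inr (.ee t, .hh t)) = 0
  e5 : ∀ j l, x (.inl (.ga j, .be j)) * x (.inr (.cc l, .be j)) +
    x (.inl (.ga j, .inf)) * x (.inr (.cc l, .inf)) = 0
  e6 : ∀ t, x (.inl (.dp t, .be (jT t))) * x (.inr (.cc (lT t), .be (jT t))) +
    x (.inl (.dp t, .hh t)) * x (.inr (.cc (lT t), .hh t)) = 0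
  e7 : ∀ l, ∑ h, x (.inl (.rr, h)) * x (.inr (.cc l, h)) = 0

open Classical in
theorem inc_iff [Fintype L] {R : Type} [CommRing R] [Algebra R K]
    (x : (Rw β T × Hc α β T) ⊕ (Cl T L × Hc α β T) → K) :
    IncNFam R (sR jT) (sC iT jT lT) (Om lT) (Finset.univ.image (pos iT jT)) K x ↔
      Exp iT jT lT x := by
  constructor
  · rintro ⟨⟨hr, hc, ho⟩, hn⟩
    refine ⟨hr, hc, fun n => hn _ (Finset.mem_image_of_mem _ (Finset.mem_univ n)), ?_, ?_, ?_, ?_,
      ?_, ?_, ?_⟩
    · intro t
      have h := ho .om (.dd t) trivial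
      rw [sum_H, Fintype.sum_eq_single (iT t), Fintype.sum_eq_zero, Fintype.sum_eq_single t,
        hc (.dd t) .inf (fun h => h)] at h
      · simpa using h
      · intro s hs; rw [hc (.dd t) (.hh s) hs, mul_zero]
      · intro s; rw [hc (.dd t) (.be s) (fun h => h), mul_zero]
      · intro s hs; rw [hc (.dd t) (.al s) hs, mul_zero]
    · intro t
      have h := ho .om (.ee t) trivial
      rw [sum_H, Fintype.sum_eq_zero, Fintype.sum_eq_single (jT t), Fintype.sum_eq_single t,
        hc (.ee t) .inf (fun h => h)] at h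
      · simpa using h
      · intro s hs; rw [hc (.ee t) (.hh s) hs, mul_zero]
      · intro s hs; rw [hc (.ee t) (.be s) hs, mul_zero]
      · intro s; rw [hc (.ee t) (.al s) (fun h => h), mul_zero]
    · intro t
      have h := ho .rr (.dd t) trivial
      rw [sum_H, Fintype.sum_eq_single (iT t), Fintype.sum_eq_zero, Fintype.sum_eq_single t,
        hc (.dd t) .inf (fun h => h)] at h
      · simpa using h
      · intro s hs; rw [hc (.dd t) (.hh s) hs, mul_zero]
      · intro s; rw [hc (.dd t) (.be s) (fun h => h), mul_zero]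
      · intro s hs; rw [hc (.dd t) (.al s) hs, mul_zero]
    · intro t
      have h := ho (.dp t) (.ee t) rfl
      rw [sum_H, Fintype.sum_eq_zero, Fintype.sum_eq_single (jT t), Fintype.sum_eq_single t,
        hc (.ee t) .inf (fun h => h)] at h
      · simpa using h
      · intro s hs; rw [hc (.ee t) (.hh s) hs, mul_zero]
      · intro s hs; rw [hc (.ee t) (.be s) hs, mul_zero]
      · intro s; rw [hc (.ee t) (.al s) (fun h => h), mul_zero]
    · intro j l
      have h := ho (.ga j) (.cc l) trivial
      rw [sum_H, Fintype.sum_eq_zero, Fintype.sum_eq_single j, Fintype.sum_eq_zero] at h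
      · simpa using h
      · intro s; rw [hr (.ga j) (.hh s) (fun h => h), zero_mul]
      · intro s hs; rw [hr (.ga j) (.be s) hs, zero_mul]
      · intro s; rw [hr (.ga j) (.al s) (fun h => h), zero_mul]
    · intro t
      have h := ho (.dp t) (.cc (lT t)) rfl
      rw [sum_H, Fintype.sum_eq_zero, Fintype.sum_eq_single (jT t), Fintype.sum_eq_single t,
        hr (.dp t) .inf (fun h => h)] at h
      · simpa using h
      · intro s hs; rw [hr (.dp t) (.hh s) hs, zero_mul]
      · intro s hs; rw [hr (.dp t) (.be s) hs, zero_mul]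
      · intro s; rw [hr (.dp t) (.al s) (fun h => h), zero_mul]
    · intro l
      exact ho .rr (.cc l) trivial
  · intro h
    refine ⟨⟨h.hr, h.hc, ?_⟩, ?_⟩
    · intro i j hij
      rcases i with _ | _ | t | b <;> rcases j with s | s | l
      · rw [sum_H, Fintype.sum_eq_single (iT s), Fintype.sum_eq_zero, Fintype.sum_eq_single s,
          h.hc (.dd s) .inf (fun h => h)]
        · simpa using h.e1 s
        · intro u hu; rw [h.hc (.dd s) (.hh u) hu, mul_zero]
        · intro u; rw [h.hc (.dd s) (.be u) (fun h => h), mul_zero]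
        · intro u hu; rw [h.hc (.dd s) (.al u) hu, mul_zero]
      · rw [sum_H, Fintype.sum_eq_zero, Fintype.sum_eq_single (jT s), Fintype.sum_eq_single s,
          h.hc (.ee s) .inf (fun h => h)]
        · simpa using h.e2 s
        · intro u hu; rw [h.hc (.ee s) (.hh u) hu, mul_zero]
        · intro u hu; rw [h.hc (.ee s) (.be u) hu, mul_zero]
        · intro u; rw [h.hc (.ee s) (.al u) (fun h => h), mul_zero]
      · exact hij.elim
      · rw [sum_H, Fintype.sum_eq_single (iT s), Fintype.sum_eq_zero, Fintype.sum_eq_single s,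
          h.hc (.dd s) .inf (fun h => h)]
        · simpa using h.e3 s
        · intro u hu; rw [h.hc (.dd s) (.hh u) hu, mul_zero]
        · intro u; rw [h.hc (.dd s) (.be u) (fun h => h), mul_zero]
        · intro u hu; rw [h.hc (.dd s) (.al u) hu, mul_zero]
      · exact hij.elim
      · exact h.e7 l
      · exact hij.elim
      · obtain rfl : s = t := hij
        rw [sum_H, Fintype.sum_eq_zero, Fintype.sum_eq_single (jT s), Fintype.sum_eq_single s,
          h.hc (.ee s) .inf (fun h => h)]
        · simpa using h.e4 s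
        · intro u hu; rw [h.hc (.ee s) (.hh u) hu, mul_zero]
        · intro u hu; rw [h.hc (.ee s) (.be u) hu, mul_zero]
        · intro u; rw [h.hc (.ee s) (.al u) (fun h => h), mul_zero]
      · obtain rfl : lT t = l := hij
        rw [sum_H, Fintype.sum_eq_zero, Fintype.sum_eq_single (jT t), Fintype.sum_eq_single t,
          h.hr (.dp t) .inf (fun h => h)]
        · simpa using h.e6 t
        · intro s hs; rw [h.hr (.dp t) (.hh s) hs, zero_mul]
        · intro s hs; rw [h.hr (.dp t) (.be s) hs, zero_mul]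
        · intro s; rw [h.hr (.dp t) (.al s) (fun h => h), zero_mul]
      · exact hij.elim
      · exact hij.elim
      · rw [sum_H, Fintype.sum_eq_zero, Fintype.sum_eq_single b, Fintype.sum_eq_zero]
        · simpa using h.e5 b l
        · intro s; rw [h.hr (.ga b) (.hh s) (fun h => h), zero_mul]
        · intro s hs; rw [h.hr (.ga b) (.be s) hs, zero_mul]
        · intro s; rw [h.hr (.ga b) (.al s) (fun h => h), zero_mul]
    · intro e he
      obtain ⟨n, -, rfl⟩ := Finset.mem_image.mp he
      exact h.n0 n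

open Classical in
theorem gm_fm (x : (Rw β T × Hc α β T) ⊕ (Cl T L × Hc α β T) → K) (h : Exp iT jT lT x) :
    gm iT jT lT (fm iT jT x) = x := by
  have hom : ∀ i, x (.inl (.om, .al i)) ≠ 0 := fun i => h.n0 (.mal i)
  have hob : ∀ i, x (.inl (.om, .be i)) ≠ 0 := fun i => h.n0 (.mbe i)
  have hoh : ∀ i, x (.inl (.om, .hh i)) ≠ 0 := fun i => h.n0 (.mh i)
  have hde : ∀ t, x (.inr (.dd t, .al (iT t))) ≠ 0 := fun i => h.n0 (.de i)
  have hep : ∀ t, x (.inr (.ee t, .be (jT t))) ≠ 0 := fun i => h.n0 (.ep i)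
  have hdp : ∀ t, x (.inl (.dp t, .be (jT t))) ≠ 0 := fun i => h.n0 (.dp i)
  have hg : ∀ j, x (.inl (.ga j, .be j)) ≠ 0 := fun i => h.n0 (.g i)
  have hk : ∀ l, x (.inr (.cc l, .inf)) ≠ 0 := fun i => h.n0 (.ka i)
  have a1 : ∀ t, x (.inr (.dd t, .hh t)) =
      - (x (.inl (.om, .al (iT t))) * x (.inr (.dd t, .al (iT t))) / x (.inl (.om, .hh t))) := by
    intro t
    have := hoh t
    field_simp
    linear_combination h.e1 t
  have a2 : ∀ t, x (.inr (.ee t, .hh t)) =
      - (x (.inl (.om, .be (jT t))) * x (.inr (.ee t, .be (jT t))) / x (.inl (.om, .hh t))) := by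
    intro t
    have := hoh t
    field_simp
    linear_combination h.e2 t
  have a3 : ∀ t, x (.inl (.rr, .hh t)) =
      x (.inl (.rr, .al (iT t))) / x (.inl (.om, .al (iT t))) * x (.inl (.om, .hh t)) := by
    intro t
    have h3 := h.e3 t
    rw [a1] at h3
    have h1 := hoh t
    have h2 := hom (iT t)
    have h4 := hde t
    field_simp at h3 ⊢
    have h6 := (mul_eq_zero.mp (h3.trans (mul_zero _))).resolve_left h4
    linear_combination -h6
  have a4 : ∀ t, x (.inl (.dp t, .hh t)) =
      x (.inl (.dp t, .be (jT t))) * x (.inl (.om, .hh t)) / x (.inl (.om, .be (jT t))) := by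
    intro t
    have h3 := h.e4 t
    rw [a2] at h3
    have h1 := hoh t
    have h2 := hob (jT t)
    have h4 := hep t
    field_simp at h3 ⊢
    have h6 := (mul_eq_zero.mp (h3.trans (mul_zero _))).resolve_left h4
    linear_combination -h6
  have a5 : ∀ j l, x (.inr (.cc l, .be j)) =
      - (x (.inl (.ga j, .inf)) * x (.inr (.cc l, .inf)) / x (.inl (.ga j, .be j))) := by
    intro j l
    have := hg j
    field_simp
    linear_combination h.e5 j l
  have a6 : ∀ t, x (.inr (.cc (lT t), .hh t)) =
      x (.inl (.ga (jT t), .inf)) * x (.inl (.om, .be (jT t))) / x (.inl (.ga (jT t), .be (jT t))) *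
        x (.inr (.cc (lT t), .inf)) / x (.inl (.om, .hh t)) := by
    intro t
    have h3 := h.e6 t
    rw [a4, a5] at h3
    have h1 := hoh t
    have h2 := hob (jT t)
    have h4 := hdp t
    have h5 := hg (jT t)
    field_simp at h3 ⊢
    have h6 := (mul_eq_zero.mp (h3.trans (mul_zero _))).resolve_left h4
    linear_combination h6
  funext e
  rcases e with ⟨i, k⟩ | ⟨j, k⟩
  · rcases i with _ | _ | t | b <;> rcases k with i | j | s | _
    · rfl
    · rfl
    · rfl
    · exact (h.hr .om .inf (fun h => h)).symm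
    · have := hom i
      simp only [gm, fm, pos]
      field_simp
    · exact (h.hr .rr (.be j) (fun h => h)).symm
    · rw [a3]; rfl
    · exact (h.hr .rr .inf (fun h => h)).symm
    · exact (h.hr (.dp t) (.al i) (fun h => h)).symm
    · simp only [gm, fm, pos]
      split_ifs with hj
      · rw [hj]
      · exact (h.hr (.dp t) (.be j) hj).symm
    · simp only [gm, fm, pos]
      split_ifs with hj
      · subst hj; rw [a4]
      · exact (h.hr (.dp t) (.hh s) hj).symm
    · exact (h.hr (.dp t) .inf (fun h => h)).symm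
    · exact (h.hr (.ga b) (.al i) (fun h => h)).symm
    · simp only [gm, fm, pos]
      split_ifs with hj
      · rw [hj]
      · exact (h.hr (.ga b) (.be j) hj).symm
    · exact (h.hr (.ga b) (.hh s) (fun h => h)).symm
    · have h1 := hob b
      have h2 := hg b
      simp only [gm, fm, pos]
      field_simp
  · rcases j with t | t | l <;> rcases k with i | j | s | _
    · simp only [gm, fm, pos]
      split_ifs with hj
      · rw [hj]
      · exact (h.hc (.dd t) (.al i) hj).symm
    · exact (h.hc (.dd t) (.be j) (fun h => h)).symm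
    · simp only [gm, fm, pos]
      split_ifs with hj
      · subst hj; rw [a1]
      · exact (h.hc (.dd t) (.hh s) hj).symm
    · exact (h.hc (.dd t) .inf (fun h => h)).symm
    · exact (h.hc (.ee t) (.al i) (fun h => h)).symm
    · simp only [gm, fm, pos]
      split_ifs with hj
      · rw [hj]
      · exact (h.hc (.ee t) (.be j) hj).symm
    · simp only [gm, fm, pos]
      split_ifs with hj
      · subst hj; rw [a2]
      · exact (h.hc (.ee t) (.hh s) hj).symm
    · exact (h.hc (.ee t) .inf (fun h => h)).symm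
    · exact (h.hc (.cc l) (.al i) (fun h => h)).symm
    · have h1 := hob j
      have h2 := hg j
      rw [a5]
      simp only [gm, fm, pos]
      field_simp
    · simp only [gm, fm, pos]
      split_ifs with hj
      · subst hj; rw [a6]
      · exact (h.hc (.cc l) (.hh s) hj).symm
    · rfl

omit [Fintype α] [Fintype β] [Fintype T] in
open Classical in
theorem fm_gm (y : (α ⊕ β) ⊕ Nz α β T L → K) (h0 : ∀ n, y (.inr n) ≠ 0) :
    fm iT jT (gm iT jT lT y) = y := by
  funext e
  rcases e with (i | j) | n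
  · have := h0 (.mal i)
    simp only [gm, fm]
    field_simp
  · have h1 := h0 (.mbe j)
    have h2 := h0 (.g j)
    simp only [gm, fm, if_true]
    field_simp
  · rcases n with _ | _ | _ | _ | _ | _ | _ | _ <;> simp [gm, fm, pos]

open Classical in
theorem gm_exp (y : (α ⊕ β) ⊕ Nz α β T L → K) (h0 : ∀ n, y (.inr n) ≠ 0)
    (hs : ∀ l : L, ∑ t, (if lT t = l then y (.inl (.inl (iT t))) * y (.inl (.inr (jT t))) else 0)
      = 0) : Exp iT jT lT (gm iT jT lT y) := by
  have hmh : ∀ t, y (.inr (.mh t)) ≠ 0 := fun t => h0 _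
  have hmb : ∀ t, y (.inr (.mbe t)) ≠ 0 := fun t => h0 _
  refine ⟨?_, ?_, ?_, ?_, ?_, ?_, ?_, ?_, ?_, ?_⟩
  · intro i h hn
    rcases i with _ | _ | t | b <;> rcases h with i | j | s | _ <;>
      first
      | rfl
      | exact absurd trivial hn
      | exact if_neg hn
  · intro i h hn
    rcases i with t | t | l <;> rcases h with i | j | s | _ <;>
      first
      | rfl
      | exact absurd trivial hn
      | exact if_neg hn
  · intro n
    have := congrFun (fm_gm iT jT lT y h0) (.inr n)
    have h1 : gm iT jT lT y (pos iT jT n) = y (.inr n) := this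
    rw [h1]
    exact h0 n
  · intro t
    have := hmh t
    simp only [gm, if_true]
    field_simp
    ring
  · intro t
    have := hmh t
    simp only [gm, if_true]
    field_simp
    ring
  · intro t
    have := hmh t
    simp only [gm, if_true]
    field_simp
    ring
  · intro t
    have := hmh t
    have := hmb (jT t)
    simp only [gm, if_true]
    field_simp
    ring
  · intro j l
    have := hmb j
    simp only [gm, if_true]
    field_simp
    ring
  · intro t
    have := hmh t
    have := hmb (jT t)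
    simp only [gm, if_true]
    field_simp
    ring
  · intro l
    rw [sum_rc iT jT lT y h0, hs, mul_zero]

open Classical in
theorem fm_sys (x : (Rw β T × Hc α β T) ⊕ (Cl T L × Hc α β T) → K) (h : Exp iT jT lT x) (l : L) :
    ∑ t, (if lT t = l then fm iT jT x (.inl (.inl (iT t))) * fm iT jT x (.inl (.inr (jT t))) else 0)
      = 0 := by
  have h0 : ∀ n, fm iT jT x (.inr n) ≠ 0 := fun n => h.n0 n
  have h1 := sum_rc iT jT lT (fm iT jT x) h0 l
  rw [gm_fm iT jT lT x h, h.e7 l] at h1
  exact (mul_eq_zero.mp h1.symm).resolve_left (h0 _)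

end cal

end fam

section main

variable {R : Type} [CommRing R] (P : Sch R → Prop) (hP : Kit P)
variable [Fintype α] [Fintype β] [Fintype T] [Fintype L]
variable (iT : T → α) (jT : T → β) (lT : T → L)

open Classical in
/-- the family of the matrices -/
abbrev IF (R : Type) [CommRing R] : Fam R ((Rw β T × Hc α β T) ⊕ (Cl T L × Hc α β T)) :=
  IncNFam R (sR jT) (sC iT jT lT) (Om lT) (Finset.univ.image (pos iT jT))

/-- the product of the system with a torus -/
abbrev TF (R : Type) [CommRing R] : Fam R ((α ⊕ β) ⊕ Nz α β T L) := fun K _ _ y =>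
  GSys iT jT lT R K (fun s => y (.inl s)) ∧ ∀ n, y (.inr n) ≠ 0

open Classical in
theorem tf_is : Is (TF iT jT lT R)
    (fun l : L => ∑ t, (if lT t = l then X (.inl (.inl (iT t))) * X (.inl (.inr (jT t))) else 0))
    (∏ n, X (.inr n)) := by
  intro K _ _ y
  have h1 : ∀ l : L, aeval y (∑ t, (if lT t = l then X (.inl (.inl (iT t))) *
      X (.inl (.inr (jT t))) else 0) : MvPolynomial ((α ⊕ β) ⊕ Nz α β T L) R) =
      ∑ t, (if lT t = l then y (.inl (.inl (iT t))) * y (.inl (.inr (jT t))) else 0) := by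
    intro l
    rw [map_sum]
    refine Finset.sum_congr rfl fun t _ => ?_
    split_ifs <;> simp
  have h2 : aeval y (∏ n, X (.inr n) : MvPolynomial ((α ⊕ β) ⊕ Nz α β T L) R) =
      ∏ n, y (.inr n) := by
    rw [map_prod]; simp
  simp only [h1, h2]
  constructor
  · rintro ⟨a, b⟩
    exact ⟨fun l => a l, Finset.prod_ne_zero_iff.mpr fun n _ => b n⟩
  · rintro ⟨a, b⟩
    exact ⟨fun l => a l, fun n => Finset.prod_ne_zero_iff.mp b n (Finset.mem_univ n)⟩

include hP in
open Classical in
theorem q_gsys (h : Q P (IF iT jT lT R)) : Q P (GSys iT jT lT R) := by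
  rw [← hP.torus (τ := Nz α β T L)]
  refine ⟨L, _, _, tf_is iT jT lT, ?_⟩
  refine hP.iso (IF iT jT lT R) (TF iT jT lT R) (fun K _ _ x => fm iT jT x)
    (fun K _ _ y => gm iT jT lT y) ?_ ?_ ?_ ?_ ?_ ?_ h _ _ (tf_is iT jT lT)
  · rintro ((i | j) | n)
    · refine rg_div (rg_coord _) (rg_coord _) fun K _ _ x hx => ?_
      exact ((inc_iff iT jT lT x).mp hx).n0 (.mal i)
    · refine rg_div (rg_mul (rg_coord _) (rg_coord _)) (rg_coord _) fun K _ _ x hx => ?_
      exact ((inc_iff iT jT lT x).mp hx).n0 (.g j)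
    · exact rg_coord _
  · rintro (⟨i, k⟩ | ⟨j, k⟩)
    · rcases i with _ | _ | t | b <;> rcases k with i | j | s | _ <;>
        first
        | exact rg_coord _
        | exact rg_zero
        | exact rg_mul (rg_coord _) (rg_coord _)
        | exact rg_ite (rg_coord _) rg_zero
        | exact rg_ite (rg_div (rg_mul (rg_coord _) (rg_coord _)) (rg_coord _)
            fun K _ _ x hx => hx.2 _) rg_zero
        | exact rg_div (rg_mul (rg_coord _) (rg_coord _)) (rg_coord _) fun K _ _ x hx => hx.2 _
    · rcases j with t | t | l <;> rcases k with i | j | s | _ <;>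
        first
        | exact rg_coord _
        | exact rg_zero
        | exact rg_ite (rg_coord _) rg_zero
        | exact rg_ite (rg_neg (rg_div (rg_mul (rg_coord _) (rg_coord _)) (rg_coord _)
            fun K _ _ x hx => hx.2 _)) rg_zero
        | exact rg_ite (rg_div (rg_mul (rg_coord _) (rg_coord _)) (rg_coord _)
            fun K _ _ x hx => hx.2 _) rg_zero
        | exact rg_neg (rg_div (rg_mul (rg_coord _) (rg_coord _)) (rg_coord _)
            fun K _ _ x hx => hx.2 _)
  · intro K _ _ x hx
    have h1 := (inc_iff iT jT lT x).mp hx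
    exact ⟨fun l => fm_sys iT jT lT x h1 l, fun n => h1.n0 n⟩
  · intro K _ _ y hy
    exact (inc_iff iT jT lT _).mpr (gm_exp iT jT lT y hy.2 fun l => hy.1 l)
  · intro K _ _ x hx
    exact gm_fm iT jT lT x ((inc_iff iT jT lT x).mp hx)
  · intro K _ _ y hy
    exact fm_gm iT jT lT y hy.2

end main

/-- **Piece PSys.** -/
theorem t_PSys : PSys := by
  intro R _ P hP h a b c E
  classical
  have h1 := q_gsys P hP (α := Fin a) (β := Fin b) (T := Σ l : Fin c, {e // e ∈ E l}) (L := Fin c)
    (fun t => t.2.1.1) (fun t => t.2.1.2) (fun t => t.1) (h _ _ _ _)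
  have h2 : GSys (α := Fin a) (β := Fin b) (T := Σ l : Fin c, {e // e ∈ E l}) (L := Fin c)
      (fun t => t.2.1.1) (fun t => t.2.1.2) (fun t => t.1) R = SysFam R E := by
    funext K _ _ x
    refine propext (forall_congr' fun l => ?_)
    have : ∑ t : (Σ l : Fin c, {e // e ∈ E l}),
        (if t.1 = l then x (.inl t.2.1.1) * x (.inr t.2.1.2) else 0) =
        ∑ e ∈ E l, x (Sum.inl e.1) * x (Sum.inr e.2) := by
      rw [Fintype.sum_sigma, Fintype.sum_eq_single l]
      · simp only [if_true]
        exact Finset.sum_coe_sort (E l) fun e => x (Sum.inl e.1) * x (Sum.inr e.2)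
      · intro l' hl'
        simp [hl']
    refine Iff.of_eq (congrArg (· = 0) (Eq.trans (Finset.sum_congr rfl fun t _ => ?_) this))
    by_cases ht : t.1 = l
    · simp only [ht, if_true]
    · simp only [ht, if_false]
  rw [← h2]
  exact h1

end Run7.h579.GH
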